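import Pool.Agent.Helper12.CW.SR1

/-!
MP_c75db0, plan W, star frame: rows DM, SYL, RUN, PHS, RHO.
-/

set_option autoImplicit false
noncomputable section
namespace Pool.Agent.Helper6.MONO.W2

open Matrix

/-! ### words in the letters `0, 1` -/

theorem dm_mul2 (a b c d e f : ℂ) :
    (!![a, 0, 0; 0, b, 0; 0, 0, 1] : Mt) * (!![0, c, 0; d, 0, 0; 0, 0, 1] : Mt) =
      !![0, a * c, 0; b * d, 0, 0; 0, 0, 1] ∧
    (!![0, c, 0; d, 0, 0; 0, 0, 1] : Mt) * (!![0, e, 0; f, 0, 0; 0, 0, 1] : Mt) =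
      !![c * f, 0, 0; 0, d * e, 0; 0, 0, 1] := by
  constructor
  · ext i j
    fin_cases i <;> fin_cases j <;> simp [Matrix.mul_apply, Fin.sum_univ_three]
  · ext i j
    fin_cases i <;> fin_cases j <;> simp [Matrix.mul_apply, Fin.sum_univ_three]

theorem dm_mul1 (a b c d : ℂ) :
    (!![a, 0, 0; 0, b, 0; 0, 0, 1] : Mt) * (!![c, 0, 0; 0, d, 0; 0, 0, 1] : Mt) =
      !![a * c, 0, 0; 0, b * d, 0; 0, 0, 1] ∧
    (!![0, a, 0; b, 0, 0; 0, 0, 1] : Mt) * (!![c, 0, 0; 0, d, 0; 0, 0, 1] : Mt) =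
      !![0, a * d, 0; b * c, 0, 0; 0, 0, 1] := by
  constructor
  · ext i j
    fin_cases i <;> fin_cases j <;> simp [Matrix.mul_apply, Fin.sum_univ_three]
  · ext i j
    fin_cases i <;> fin_cases j <;> simp [Matrix.mul_apply, Fin.sum_univ_three]

theorem dm_false (φ k1 k2 : ℝ) (z : ℂ) (m : ℕ) :
    sW φ k1 k2 z (alt 0 1 (2 * m)) =
      !![(ep φ) ^ (2 * m), 0, 0; 0, (star (ep φ)) ^ (2 * m), 0; 0, 0, 1] ∧
    sW φ k1 k2 z (alt 0 1 (2 * m + 1)) =
      !![0, -(star (ep φ)) ^ (2 * m), 0; -(ep φ) ^ (2 * m), 0, 0; 0, 0, 1] := by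
  have hp : sI1 φ * sI0 = !![(ep φ) ^ 2, 0, 0; 0, (star (ep φ)) ^ 2, 0; 0, 0, 1] := by
    unfold sI1 sI0
    rw [(dm_mul2 0 0 _ _ _ _).2]
    simp
  have h0 : sL φ k1 k2 z 0 = sI0 := rfl
  have h1 : sL φ k1 k2 z 1 = sI1 φ := rfl
  induction m with
  | zero =>
    constructor
    · simp only [Nat.mul_zero, alt, sW, pow_zero]
      ext i j
      fin_cases i <;> fin_cases j <;> simp
    · simp only [Nat.mul_zero, Nat.zero_add, alt, sW, pow_zero, h0, Matrix.one_mul]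
      rfl
  | succ m ih =>
    constructor
    · have e : 2 * (m + 1) = 2 * m + 2 := by ring
      rw [e]
      show sW φ k1 k2 z (0 :: 1 :: alt 0 1 (2 * m)) = _
      rw [sW, sW, ih.1, h0, h1, Matrix.mul_assoc, hp, (dm_mul1 _ _ _ _).1, ← pow_add, ← pow_add]
    · have e : 2 * (m + 1) = 2 * m + 2 := by ring
      rw [e]
      show sW φ k1 k2 z (0 :: 1 :: alt 0 1 (2 * m + 1)) = _
      rw [sW, sW, ih.2, h0, h1, Matrix.mul_assoc, hp, (dm_mul1 _ _ _ _).2, neg_mul, neg_mul,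
        ← pow_add, ← pow_add]

theorem dm_true (φ k1 k2 : ℝ) (z : ℂ) (m : ℕ) :
    sW φ k1 k2 z (alt 1 0 (2 * m)) =
      !![(star (ep φ)) ^ (2 * m), 0, 0; 0, (ep φ) ^ (2 * m), 0; 0, 0, 1] ∧
    sW φ k1 k2 z (alt 1 0 (2 * m + 1)) =
      !![0, -(ep φ) ^ (2 * m + 2), 0; -(star (ep φ)) ^ (2 * m + 2), 0, 0; 0, 0, 1] := by
  have hp : sI0 * sI1 φ = !![(star (ep φ)) ^ 2, 0, 0; 0, (ep φ) ^ 2, 0; 0, 0, 1] := by
    unfold sI1 sI0
    rw [(dm_mul2 0 0 _ _ _ _).2]
    simp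
  have h0 : sL φ k1 k2 z 0 = sI0 := rfl
  have h1 : sL φ k1 k2 z 1 = sI1 φ := rfl
  induction m with
  | zero =>
    constructor
    · simp only [Nat.mul_zero, alt, sW, pow_zero]
      ext i j
      fin_cases i <;> fin_cases j <;> simp
    · simp only [Nat.mul_zero, Nat.zero_add, alt, sW, h1, Matrix.one_mul]
      rfl
  | succ m ih =>
    constructor
    · have e : 2 * (m + 1) = 2 * m + 2 := by ring
      rw [e]
      show sW φ k1 k2 z (1 :: 0 :: alt 1 0 (2 * m)) = _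
      rw [sW, sW, ih.1, h0, h1, Matrix.mul_assoc, hp, (dm_mul1 _ _ _ _).1, ← pow_add, ← pow_add]
    · have e : 2 * (m + 1) = 2 * m + 2 := by ring
      rw [e]
      show sW φ k1 k2 z (1 :: 0 :: alt 1 0 (2 * m + 1)) = _
      rw [sW, sW, ih.2, h0, h1, Matrix.mul_assoc, hp, (dm_mul1 _ _ _ _).2, neg_mul, neg_mul,
        ← pow_add, ← pow_add]

/-- ROW DM -/
theorem st_DM : ST_DM := by
  intro φ k1 k2 z a k
  obtain ⟨m, hm | hm⟩ := Nat.even_or_odd' k
  · subst hm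
    cases a
    · have h := (dm_false φ k1 k2 z m).1
      simpa [sDm] using h
    · have h := (dm_true φ k1 k2 z m).1
      simpa [sDm] using h
  · subst hm
    have hk : ¬ (2 * m + 1) % 2 = 0 := by omega
    cases a
    · have h := (dm_false φ k1 k2 z m).2
      simp only [sDm, hk, if_false, Nat.add_sub_cancel]
      simpa using h
    · have h := (dm_true φ k1 k2 z m).2
      simp only [sDm, hk, if_false, if_true]
      exact h

theorem sWd_alt (φ k1 k2 : ℝ) (x : ℝ) (i j : Fin 3) (hi : i ≠ 2) (hj : j ≠ 2) (n : ℕ)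
    (v : List (Fin 3)) : sWd φ k1 k2 x (alt i j n ++ v) =
      sWd φ k1 k2 x v * sW φ k1 k2 (zx x) (alt i j n) := by
  induction n generalizing i j with
  | zero => simp [alt, sW]
  | succ n ih =>
    have h0 : ∀ i : Fin 3, i ≠ 2 → sLd φ k1 k2 x i = 0 := by
      intro i hi
      fin_cases i
      · rfl
      · rfl
      · exact absurd rfl hi
    rw [alt, List.cons_append, sWd, h0 i hi, Matrix.mul_zero, add_zero, ih j i hj hi, sW,
      Matrix.mul_assoc]

/-- ROW SYL -/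
theorem st_SYL : ST_SYL := by
  intro φ k1 k2 x a k
  have h := st_DM φ k1 k2 (zx x) a k
  have h2 : sL φ k1 k2 (zx x) 2 = sI2 (sA φ k1 k2 (zx x)) (sB φ k1 k2 (zx x)) := rfl
  have h3 : sWd φ k1 k2 x [2] =
      sI2d (sA φ k1 k2 (zx x)) (sB φ k1 k2 (zx x)) (sAd φ k2 x) (sBd φ k2 x) := by
    simp only [sWd, sW, Matrix.zero_mul, zero_add, Matrix.one_mul]
    rfl
  constructor
  · rw [syl, sW_append, h]
    simp only [sW, Matrix.one_mul, h2]
  · cases a
    · simp only [syl, Bool.false_eq_true, if_false] at h ⊢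
      rw [sWd_alt φ k1 k2 x 0 1 (by decide) (by decide), h, h3]
    · simp only [syl, if_true] at h ⊢
      rw [sWd_alt φ k1 k2 x 1 0 (by decide) (by decide), h, h3]

/-! ### two reflections -/

theorem fin3 (j : Fin 3) : j = 0 ∨ j = 1 ∨ j = 2 := by
  fin_cases j <;> simp

/-- outer product -/
def oJ (t : ℝ) (u w : V3) : Mt :=
  Matrix.of (fun i j => u i * ![star (w 0), star (w 1), -(t * star (w 2))] j)

theorem oJ_mul (t : ℝ) (a b c d : V3) : oJ t a b * oJ t c d = brJ t c b • oJ t a d := by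
  ext i j
  rw [Matrix.mul_apply, Fin.sum_univ_three]
  simp only [oJ, brJ, Matrix.of_apply, Matrix.smul_apply, smul_eq_mul, Matrix.cons_val]
  ring

theorem oJ_left (t : ℝ) (a b : ℂ) (s v w : V3) :
    oJ t (a • s - b • v) w = a • oJ t s w - b • oJ t v w := by
  ext i j
  simp only [oJ, Matrix.of_apply, Matrix.smul_apply, Matrix.sub_apply, smul_eq_mul,
    Pi.sub_apply, Pi.smul_apply]
  ring

theorem oJ_right (t a b : ℝ) (s v w : V3) :
    oJ t w ((a : ℂ) • s - (b : ℂ) • v) = (a : ℂ) • oJ t w s - (b : ℂ) • oJ t w v := by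
  have ha : ∀ (a : ℝ), star (a : ℂ) = (a : ℂ) := fun a => Complex.conj_ofReal a
  ext i j
  simp only [oJ, Matrix.of_apply, Matrix.smul_apply, Matrix.sub_apply, smul_eq_mul,
    Pi.sub_apply, Pi.smul_apply, star_sub, star_mul', ha]
  rcases fin3 j with rfl | rfl | rfl
  · simp only [Matrix.cons_val]
    ring
  · simp only [Matrix.cons_val]
    ring
  · simp only [Matrix.cons_val]
    ring

theorem rfJ_eq (t : ℝ) (V : V3) : rfJ t V = 1 - oJ t V V := rfl

theorem brJ_left (t : ℝ) (a b : ℂ) (s v w : V3) :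
    brJ t (a • s - b • v) w = a * brJ t s w - b * brJ t v w := by
  simp only [brJ, Pi.sub_apply, Pi.smul_apply, smul_eq_mul]
  ring

theorem brJ_right (t a b : ℝ) (s v w : V3) :
    brJ t w ((a : ℂ) • s - (b : ℂ) • v) = a * brJ t w s - b * brJ t w v := by
  have ha : ∀ (a : ℝ), star (a : ℂ) = (a : ℂ) := fun a => Complex.conj_ofReal a
  simp only [brJ, Pi.sub_apply, Pi.smul_apply, smul_eq_mul, star_sub, star_mul', ha]
  ring

/-- one step of the run -/
theorem rf_step (t κ a b : ℝ) (s v : V3) (hs : brJ t s s = 2) (hv : brJ t v v = 2)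
    (hvs : brJ t v s = κ) (hsv : brJ t s v = κ) (hab : a ^ 2 + b ^ 2 - κ * a * b = 1) :
    rfJ t ((a : ℂ) • s - (b : ℂ) • v) * (rfJ t v * rfJ t s) =
      rfJ t (((κ * a - b : ℝ) : ℂ) • s - (a : ℂ) • v) := by
  have hab' : (a : ℂ) ^ 2 + b ^ 2 - κ * a * b = 1 := by exact_mod_cast hab
  have e1 : rfJ t v * rfJ t s = 1 - oJ t v v - oJ t s s + (κ : ℂ) • oJ t v s := by
    rw [rfJ_eq, rfJ_eq, sub_mul, one_mul, mul_sub, mul_one, oJ_mul, hsv]
    abel
  rw [e1, rfJ_eq, rfJ_eq, sub_mul, one_mul, oJ_right, oJ_left, oJ_left, oJ_right, oJ_left,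
    oJ_left]
  simp only [mul_add, mul_sub, mul_one, sub_mul, Matrix.smul_mul, Matrix.mul_smul, oJ_mul,
    hs, hv, hvs, hsv, smul_sub, smul_smul]
  push_cast
  linear_combination (norm := module) hab' • oJ t s s - ((κ : ℂ) • hab') • oJ t v s +
    hab' • oJ t v v

theorem Us_inv (κ : ℝ) (n : ℕ) :
    Us κ (n + 1) ^ 2 + Us κ n ^ 2 - κ * Us κ (n + 1) * Us κ n = 1 := by
  induction n with
  | zero => simp [Us]
  | succ n ih =>
    rw [Us]
    linear_combination ih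

/-- ROW RUN -/
theorem st_RUN : ST_RUN := by
  intro t κ s v hs hv hvs hsv n
  induction n with
  | zero => simp [Us]
  | succ n ih =>
    rw [pow_succ, ← mul_assoc, ih, rf_step t κ _ _ s v hs hv hvs hsv (Us_inv κ n)]
    rw [show Us κ (n + 1 + 1) = κ * Us κ (n + 1) - Us κ n from rfl]

/-- ROW PHS -/
theorem st_PHS : ST_PHS := by
  intro t V f hf
  have h : f * star f = 1 := by
    have h2 : star f = (starRingEnd ℂ) f := rfl
    rw [h2, Complex.mul_conj, Complex.normSq_eq_norm_sq, hf]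
    norm_num
  rw [rfJ_eq, rfJ_eq]
  congr 1
  ext i j
  simp only [oJ, Matrix.of_apply, smul_eq_mul, Pi.smul_apply, star_mul']
  rcases fin3 j with rfl | rfl | rfl
  · simp only [Matrix.cons_val]
    linear_combination (V i * star (V 0)) * h
  · simp only [Matrix.cons_val]
    linear_combination (V i * star (V 1)) * h
  · simp only [Matrix.cons_val]
    linear_combination (-(V i * (t * star (V 2)))) * h

theorem Us_sin (θ : ℝ) (n : ℕ) :
    Real.sin θ * Us (2 * Real.cos θ) n = Real.sin (n * θ) ∧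
      Real.sin θ * Us (2 * Real.cos θ) (n + 1) = Real.sin ((n + 1 : ℕ) * θ) := by
  induction n with
  | zero => simp [Us]
  | succ n ih =>
    refine ⟨ih.2, ?_⟩
    rw [Us]
    have e1 : ((n + 1 + 1 : ℕ) : ℝ) * θ = ((n + 1 : ℕ) : ℝ) * θ + θ := by
      push_cast
      ring
    have e2 : ((n : ℕ) : ℝ) * θ = ((n + 1 : ℕ) : ℝ) * θ - θ := by
      push_cast
      ring
    have i1 := ih.1
    have i2 := ih.2
    rw [e2, Real.sin_sub] at i1
    rw [e1, Real.sin_add]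
    linear_combination 2 * Real.cos θ * i2 - i1

/-- ROW RHO -/
theorem st_RHO : ST_RHO := by
  intro M n hM hn hnM
  obtain ⟨m, rfl⟩ : ∃ m, n = m + 1 := ⟨n - 1, by omega⟩
  rw [Nat.add_sub_cancel]
  have hM' : (3 : ℝ) ≤ M := by exact_mod_cast hM
  have hMp : (0 : ℝ) < M := by linarith
  have hpi := Real.pi_pos
  obtain ⟨θ, hθ⟩ : ∃ θ, θ = Real.pi / M := ⟨_, rfl⟩
  have hθ0 : 0 < θ := by rw [hθ]; positivity
  have hMθ : (M : ℝ) * θ = Real.pi := by rw [hθ]; field_simp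
  have hθ1 : θ < Real.pi := by nlinarith
  have hs : 0 < Real.sin θ := Real.sin_pos_of_pos_of_lt_pi hθ0 hθ1
  have hK : Kp M = 2 * Real.cos θ := by rw [hθ]; rfl
  have hnM' : 2 * ((m : ℝ) + 1) ≤ M := by exact_mod_cast hnM
  have hm0 : (0 : ℝ) ≤ m := Nat.cast_nonneg m
  obtain ⟨h1, h2⟩ := Us_sin θ m
  rw [← hK] at h1 h2
  have ha : 0 < ((m : ℝ) + 1) * θ := by positivity
  have hb : ((m : ℝ) + 1) * θ ≤ Real.pi / 2 := by nlinarith
  have e : ((m + 1 : ℕ) : ℝ) * θ = ((m : ℝ) + 1) * θ := by push_cast; ring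
  rw [e] at h2
  have hp1 : 0 < Us (Kp M) (m + 1) := by
    have h3 : 0 < Real.sin (((m : ℝ) + 1) * θ) :=
      Real.sin_pos_of_pos_of_lt_pi ha (by linarith)
    rw [← h2] at h3
    exact (pos_iff_pos_of_mul_pos h3).1 hs
  have hp2 : 0 ≤ Us (Kp M) m := by
    have h3 : 0 ≤ Real.sin ((m : ℝ) * θ) := by
      refine Real.sin_nonneg_of_nonneg_of_le_pi (by positivity) ?_
      nlinarith
    rw [← h1] at h3
    exact nonneg_of_mul_nonneg_right h3 hs
  refine ⟨hp1, hp2, ?_, ?_⟩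
  · have hc : 0 ≤ Real.cos (((m : ℝ) + 1) * θ) :=
      Real.cos_nonneg_of_mem_Icc ⟨by linarith, hb⟩
    have e3 : (m : ℝ) * θ = ((m : ℝ) + 1) * θ - θ := by ring
    rw [e3, Real.sin_sub] at h1
    rw [hK] at h1 h2 ⊢
    have h4 : Real.sin θ * (2 * Real.cos θ / 2 * Us (2 * Real.cos θ) (m + 1) -
        Us (2 * Real.cos θ) m) = Real.sin θ * Real.cos (((m : ℝ) + 1) * θ) := by
      linear_combination Real.cos θ * h2 - h1
    have h5 := mul_left_cancel₀ hs.ne' h4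
    linarith
  · have := Us_inv (Kp M) m
    linarith

end Pool.Agent.Helper6.MONO.W2
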