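import Pool.Agent.Helper12.CW.NF0

/-!
MP_c75db0, plan W, normalised star frame: rows NR2 and NR3 (range of the ratios).
-/

set_option autoImplicit false
noncomputable section
namespace Pool.Agent.Helper6.MONO.W2

theorem rn_eq (κ : ℝ) (hκ : 0 < κ) (n : ℕ) (h : ∀ i, 1 ≤ i → i ≤ n + 1 → 0 < Us κ i) :
    rn (κ ^ 2) (n + 1) = κ * Us κ n / Us κ (n + 1) := by
  induction n with
  | zero => simp [rn, Us]
  | succ n ih =>
    have i1 := ih (fun i h1 h2 => h i h1 (by omega))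
    have h1 := h (n + 1) (by omega) (by omega)
    have h2 := h (n + 1 + 1) (by omega) (by omega)
    have hU : Us κ (n + 1 + 1) = κ * Us κ (n + 1) - Us κ n := rfl
    have hr : rn (κ ^ 2) (n + 1 + 1) = κ ^ 2 / (κ ^ 2 - rn (κ ^ 2) (n + 1)) := rfl
    rw [hr, i1]
    rw [hU] at h2 ⊢
    have e : κ ^ 2 - κ * Us κ n / Us κ (n + 1) =
        κ * (κ * Us κ (n + 1) - Us κ n) / Us κ (n + 1) := by
      field_simp
    rw [e]
    field_simp

/-- ROW NR3 -/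
theorem st_NR3 : ST_NR3 := by
  intro M n hM hn hnM
  obtain ⟨m, rfl⟩ : ∃ m, n = m + 1 := ⟨n - 1, by omega⟩
  obtain ⟨h1, h2, h3, -⟩ := st_RHO M (m + 1) hM hn hnM
  rw [Nat.add_sub_cancel] at h2 h3 ⊢
  have hK : 0 < Kp M := by
    by_contra hh
    rw [not_lt] at hh
    obtain ⟨a1, a2, a3, a4⟩ := st_RHO M 1 hM le_rfl (by omega)
    have hM' : (3 : ℝ) ≤ M := by exact_mod_cast hM
    have hMp : (0 : ℝ) < M := by linarith
    have hc : 0 < Real.cos (Real.pi / M) := by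
      apply Real.cos_pos_of_mem_Ioo
      constructor
      · have : 0 < Real.pi / M := div_pos Real.pi_pos hMp
        linarith [Real.pi_pos]
      · rw [div_lt_div_iff₀ hMp (by norm_num)]
        nlinarith [Real.pi_pos]
    have : Kp M = 2 * Real.cos (Real.pi / M) := rfl
    linarith
  have hr := rn_eq (Kp M) hK m (fun i i1 i2 => (st_RHO M i hM i1 (by omega)).1)
  refine ⟨h1, hr, ?_, ?_⟩
  · rw [hr]
    positivity
  · rw [hr, ← mul_div_assoc, div_le_iff₀ h1]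
    nlinarith

/-- the invariants of the recursion for `w ≥ 4` -/
structure NI (w ρ a b : ℝ) : Prop where
  r0 : 0 ≤ ρ
  r2 : 2 * ρ ≤ w
  P : 0 < w + ρ ^ 2 - w * ρ
  a0 : 0 ≤ a
  J : b * (w + ρ ^ 2 - w * ρ) = ρ - 1 - (w - 2 * ρ) * a

theorem NI.step {w ρ a b : ℝ} (hw : 4 ≤ w) (h : NI w ρ a b) :
    NI w (w / (w - ρ)) ((ρ + w * a) / (w - ρ) ^ 2) (b + 2 * (1 + a) / (w - ρ) - 1 / w) := by
  obtain ⟨r0, r2, hP, a0, hJ⟩ := h
  obtain ⟨d, hd⟩ : ∃ d, d = w - ρ := ⟨_, rfl⟩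
  have hd2 : 2 ≤ d := by linarith
  have hdp : 0 < d := by linarith
  have hwp : 0 < w := by linarith
  rw [← hd]
  have hPe : w + (w / d) ^ 2 - w * (w / d) = w * (w + ρ ^ 2 - w * ρ) / d ^ 2 := by
    have hρ : ρ = w - d := by linarith
    rw [hρ]
    field_simp
    ring
  refine ⟨by positivity, ?_, ?_, by positivity, ?_⟩
  · rw [← mul_div_assoc, div_le_iff₀ hdp]
    nlinarith
  · rw [hPe]
    positivity
  · rw [hPe]
    have hb : b = (ρ - 1 - (w - 2 * ρ) * a) / (w + ρ ^ 2 - w * ρ) := by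
      rw [eq_div_iff hP.ne']
      exact hJ
    have hPne := hP.ne'
    have e1 : (b + 2 * (1 + a) / d - 1 / w) * (w * (w + ρ ^ 2 - w * ρ) / d ^ 2) =
        (w * (b * (w + ρ ^ 2 - w * ρ)) + 2 * (1 + a) / d * w * (w + ρ ^ 2 - w * ρ) -
          (w + ρ ^ 2 - w * ρ)) / d ^ 2 := by
      field_simp
    rw [e1, hJ]
    have hρ : ρ = w - d := by linarith
    rw [hρ]
    field_simp
    ring

/-- the bound for the derivative of the ratio -/
theorem ni_bound {w ρ a : ℝ} (hw : 4 ≤ w) (h1 : 1 ≤ ρ) (h2 : 2 * ρ ≤ w)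
    (hP : 0 < w + ρ ^ 2 - w * ρ) (ha : 0 ≤ a)
    (hI : a * (3 * (w + ρ ^ 2 - w * ρ) + w - 2 * ρ) ≤ ρ - 1) :
    (ρ + w * a) / (w - ρ) ^ 2 * (3 * (w + (w / (w - ρ)) ^ 2 - w * (w / (w - ρ))) + w -
      2 * (w / (w - ρ))) ≤ w / (w - ρ) - 1 := by
  obtain ⟨d, hd⟩ : ∃ d, d = w - ρ := ⟨_, rfl⟩
  have hwd : w = ρ + d := by linarith
  have hd2 : 2 ≤ d := by linarith
  have hρd : ρ ≤ d := by linarith
  have hdp : 0 < d := by linarith
  rw [← hd]
  have hP' : 0 < ρ + d - ρ * d := by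
    rw [hwd] at hP
    nlinarith
  have hA : 0 < 3 * (ρ + d - ρ * d) + d - ρ ∨ d = ρ := by
    rcases hρd.lt_or_eq with h | h
    · left
      linarith
    · right
      exact h.symm
  have hA0 : 0 < 3 * (ρ + d - ρ * d) + d - ρ := by linarith
  have hI' : a * (3 * (ρ + d - ρ * d) + d - ρ) ≤ ρ - 1 := by
    have e : 3 * (w + ρ ^ 2 - w * ρ) + w - 2 * ρ = 3 * (ρ + d - ρ * d) + d - ρ := by
      rw [hwd]
      ring
    rw [e] at hI
    exact hI
  have hB : 0 < 3 * (ρ + d - ρ * d) + d ^ 2 - 2 * d := by nlinarith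
  have hρ2 : ρ < 2 := by nlinarith
  -- the polynomial inequality
  have hG : 0 ≤ 6 * ρ ^ 2 * d ^ 2 + 9 * ρ ^ 3 * d + d ^ 3 - 6 * ρ * d ^ 2 - 18 * ρ ^ 2 * d -
      9 * ρ ^ 3 + d ^ 2 + 4 * ρ * d + 3 * ρ ^ 2 := by
    obtain ⟨u, hu⟩ : ∃ u, u = ρ - 1 := ⟨_, rfl⟩
    obtain ⟨e, he⟩ : ∃ e, e = d - (3 - u) := ⟨_, rfl⟩
    have hu0 : 0 ≤ u := by linarith
    have hu1 : u ≤ 1 := by linarith
    have he0 : 0 ≤ e := by linarith
    have hρu : ρ = 1 + u := by linarith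
    have hdu : d = 3 - u + e := by linarith
    rw [hρu, hdu]
    have hv : 0 ≤ 1 - u := by linarith
    have q1 := mul_nonneg hu0 hv
    have q2 := mul_nonneg hu0 he0
    have q3 := mul_nonneg he0 he0
    have q4 := mul_nonneg hv he0
    have q5 := mul_nonneg q1 hu0
    have q6 := mul_nonneg q2 hu0
    have q7 := mul_nonneg q1 he0
    have q8 := mul_nonneg q3 hu0
    have q9 := mul_nonneg q3 he0
    have q10 := mul_nonneg q1 q1
    have q11 := mul_nonneg q6 hu0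
    have q12 := mul_nonneg q5 hu0
    nlinarith
  have hF : (ρ + d) * (ρ * (3 * (ρ + d - ρ * d) + d - ρ) + (ρ + d) * (ρ - 1)) *
      (3 * (ρ + d - ρ * d) + d ^ 2 - 2 * d) ≤ ρ * d ^ 3 * (3 * (ρ + d - ρ * d) + d - ρ) := by
    have e : ρ * d ^ 3 * (3 * (ρ + d - ρ * d) + d - ρ) -
        (ρ + d) * (ρ * (3 * (ρ + d - ρ * d) + d - ρ) + (ρ + d) * (ρ - 1)) *
          (3 * (ρ + d - ρ * d) + d ^ 2 - 2 * d) = (ρ + d - ρ * d) *
        (6 * ρ ^ 2 * d ^ 2 + 9 * ρ ^ 3 * d + d ^ 3 - 6 * ρ * d ^ 2 - 18 * ρ ^ 2 * d -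
          9 * ρ ^ 3 + d ^ 2 + 4 * ρ * d + 3 * ρ ^ 2) := by
      ring
    have := mul_nonneg hP'.le hG
    linarith
  -- from `a` to its bound
  have h5 : (ρ + d) * (ρ + (ρ + d) * a) * (3 * (ρ + d - ρ * d) + d ^ 2 - 2 * d) ≤
      ρ * d ^ 3 := by
    have h6 : (ρ + (ρ + d) * a) * (3 * (ρ + d - ρ * d) + d - ρ) ≤
        ρ * (3 * (ρ + d - ρ * d) + d - ρ) + (ρ + d) * (ρ - 1) := by
      have := mul_le_mul_of_nonneg_left hI' (show 0 ≤ ρ + d by linarith)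
      linarith
    have h7 : (ρ + d) * ((ρ + (ρ + d) * a) * (3 * (ρ + d - ρ * d) + d - ρ)) *
        (3 * (ρ + d - ρ * d) + d ^ 2 - 2 * d) ≤ (ρ + d) *
          (ρ * (3 * (ρ + d - ρ * d) + d - ρ) + (ρ + d) * (ρ - 1)) *
            (3 * (ρ + d - ρ * d) + d ^ 2 - 2 * d) := by
      refine mul_le_mul_of_nonneg_right ?_ hB.le
      exact mul_le_mul_of_nonneg_left h6 (by linarith)
    have h8 : ((ρ + d) * (ρ + (ρ + d) * a) * (3 * (ρ + d - ρ * d) + d ^ 2 - 2 * d)) *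
        (3 * (ρ + d - ρ * d) + d - ρ) ≤ (ρ * d ^ 3) * (3 * (ρ + d - ρ * d) + d - ρ) := by
      linarith
    exact le_of_mul_le_mul_right h8 hA0
  have e2 : w / d - 1 = ρ / d := by
    rw [hwd]
    field_simp
    ring
  have e3 : (ρ + w * a) / d ^ 2 * (3 * (w + (w / d) ^ 2 - w * (w / d)) + w - 2 * (w / d)) =
      (ρ + d) * (ρ + (ρ + d) * a) * (3 * (ρ + d - ρ * d) + d ^ 2 - 2 * d) / d ^ 4 := by
    rw [hwd]
    field_simp
    ring
  rw [e2, e3, div_le_div_iff₀ (by positivity) hdp]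
  have h9 := mul_le_mul_of_nonneg_right h5 hdp.le
  linarith

theorem ni_all (w : ℝ) (hw : 4 ≤ w) (n : ℕ) : NI w (rn w (n + 1)) (h2 w (n + 1)) (h1 w (n + 1)) := by
  have hwp : 0 < w := by linarith
  induction n with
  | zero =>
    refine ⟨?_, ?_, ?_, ?_, ?_⟩
    · simp [rn]
    · simp [rn]
      linarith
    · simp [rn]
      linarith
    · simp [h2]
    · simp [rn, h2, h1]
      field_simp
  | succ n ih => exact ih.step hw

theorem ni_two (w : ℝ) (hw : 4 ≤ w) (n : ℕ) : 1 ≤ rn w (n + 2) ∧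
    h2 w (n + 2) * (3 * (w + rn w (n + 2) ^ 2 - w * rn w (n + 2)) + w - 2 * rn w (n + 2)) ≤
      rn w (n + 2) - 1 := by
  have hwp : 0 < w := by linarith
  induction n with
  | zero =>
    have e1 : rn w (0 + 2) = 1 := by
      show w / (w - 0) = 1
      rw [sub_zero, div_self hwp.ne']
    have e2 : h2 w (0 + 2) = 0 := by
      simp [rn, h2]
    rw [e1, e2]
    constructor
    · exact le_rfl
    · simp
  | succ n ih =>
    have hN := ni_all w hw (n + 1)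
    have e1 : rn w (n + 1 + 2) = w / (w - rn w (n + 2)) := rfl
    have e2 : h2 w (n + 1 + 2) = (rn w (n + 2) + w * h2 w (n + 2)) / (w - rn w (n + 2)) ^ 2 := rfl
    have e3 : n + 1 + 1 = n + 2 := rfl
    rw [e3] at hN
    refine ⟨?_, ?_⟩
    · rw [e1, le_div_iff₀ (by linarith [hN.r2])]
      linarith [hN.r0]
    · rw [e1, e2]
      exact ni_bound hw ih.1 hN.r2 hN.P hN.a0 ih.2

/-- ROW NR2 -/
theorem st_NR2 : ST_NR2 := by
  intro w n hw hn
  obtain ⟨m, rfl⟩ : ∃ m, n = m + 1 := ⟨n - 1, by omega⟩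
  rw [Nat.add_sub_cancel]
  have hwp : 0 < w := by linarith
  have hsq : Real.sqrt w ^ 2 = w := Real.sq_sqrt hwp.le
  have hs2 : 2 ≤ Real.sqrt w := by
    apply Real.le_sqrt_of_sq_le
    linarith
  have hU : ∀ i, 1 ≤ i → 0 < Us (Real.sqrt w) i := by
    intro i hi
    obtain ⟨j, rfl⟩ : ∃ j, i = j + 1 := ⟨i - 1, by omega⟩
    obtain ⟨c1, c2, -⟩ := st_CH2 (Real.sqrt w) hs2 j
    linarith
  have hN := ni_all w hw m
  have hN' := ni_all w hw (m + 1)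
  have hd : 0 < w - rn w (m + 1) := by linarith [hN.r2]
  have hr := rn_eq (Real.sqrt w) (by linarith) m (fun i h1 _ => hU i h1)
  rw [hsq] at hr
  refine ⟨hU _ (by omega), hr, hN.r0, ?_, hN.P, hN.r2, hN.a0, ?_, ?_⟩
  · have e : rn w (m + 1 + 1) = w / (w - rn w (m + 1)) := rfl
    rw [e, lt_div_iff₀ hd]
    nlinarith [hN.P]
  · have e : h1 w (m + 1 + 1) = h1 w (m + 1) + 2 * (1 + h2 w (m + 1)) / (w - rn w (m + 1)) -
        1 / w := rfl
    rw [e]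
    have h3 : 1 / w ≤ 2 * (1 + h2 w (m + 1)) / (w - rn w (m + 1)) := by
      rw [div_le_div_iff₀ hwp hd]
      nlinarith [hN.a0, hN.r0]
    linarith
  · intro h3
    obtain ⟨j, rfl⟩ : ∃ j, m = j + 1 := ⟨m - 1, by omega⟩
    have h4 := (ni_two w hw j).2
    have e : j + 1 + 1 = j + 2 := rfl
    rw [e] at hN ⊢
    have h5 : 3 * h2 w (j + 2) * (w + rn w (j + 2) ^ 2 - w * rn w (j + 2)) ≤
        h1 w (j + 2) * (w + rn w (j + 2) ^ 2 - w * rn w (j + 2)) := by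
      rw [hN.J]
      linarith
    exact le_of_mul_le_mul_right h5 hN.P

end Pool.Agent.Helper6.MONO.W2
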